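import Mathlib
import Pool.Agent.U707.SHA.Fld
import Pool.Agent.U643.GD.CFG
import Pool.Agent.U115.GE.Ex

/-!
# Selmer groups and `Ш[2^∞]` of quadratic twists with prime factors in an arbitrary set of primes

`E : y² = x³ + a x² + b x`, an elliptic curve over `ℚ` with a rational point of order two (`b ≠ 0` and
`c = a² - 4 b ≠ 0`), and `E_D : y² = x³ + a D x² + b D² x` its quadratic twists. `Sel` is the Selmer group
of the isogeny of degree two, given by the quartics `N² = d M⁴ + a M² e² + (b / d) e⁴`, and `Sel'` that of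
the dual isogeny. A prime is split if it is `1` modulo `8` and a nonzero square modulo the odd primes
dividing `b c`, and inert if it is odd and neither `b` nor `c` is a square modulo it. `D` is a squarefree
product of split and inert primes which is itself `1` modulo `8` and a nonzero square modulo the odd primes
dividing `b c`.

A split or inert prime `p` is *admissible* for `D` if `t⁴ + a D t² + b D²` has no root modulo `p` (all the
inert primes not dividing `D` are admissible). Nothing at all is assumed on the sets of primes below.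

* FINITE SETS: among the `k`-subsets `A` of any set of at least `N` admissible primes, `k` even, at least
  the proportion `1 / (N choose k)` is such that `E_{D ∏ A}` has Selmer groups `Sel`, `Sel'` of the same
  size as `E_D`, so that the rank and `Ш[2]` of all these twists are bounded by a number depending on `D`
  only.
* INFINITE SETS: for any set `S` of split or inert primes the following are equivalent: infinitely many
  `p ∈ S` are admissible for `D`; there is an infinite `T ⊆ S` such that the sizes of the Selmer groups of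
  `E_{D ∏ A}` are the same as those of `E_D` for ALL the finite subsets `A` of `T` with an even number of
  elements; there is an infinite `T ⊆ S` such that they are bounded for all these `A`.
* For such `T` the rank of `E_D` over a number field `K` generated by `n` square roots of products of
  evenly many elements of `T` is at most `2 ^ n · log₂ (#Sel(E_D) #Sel'(E_D) / 4)`.
* If neither `b` nor `c` is a square and `#Sel(E) · #Sel'(E) = 4` (for example `X_0(14)`: `a = 13`,
  `b = 128`), and `E_D(ℚ)` is finite with `Ш(E_D/ℚ)[2^∞] = 0` (true for `D = 1`), then `S` contains an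
  infinite `T` with the same property for ALL `E_{D ∏ A}` if and only if infinitely many `p ∈ S` are
  admissible for `D`; and over the fields `K` above, `E_D(K)` is finite and `Ш(E_D/K)[2^∞]` is killed by
  `2 ^ n`.

The descent is that of helper115 (`Pool/Agent/U115/GE`: the Selmer groups of a single twist and the kernel
of a matrix over the field with two elements), the passage to number fields is that of helper747
(`U747/GE`), and the use of the theorem of Ramsey that of helper693 (`U693/X49`, for the curve `X_0(49)`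
and nonsingular matrices). New here: the kernels of the matrices of `D` and of `D ∏ A` have the same number
of elements for homogeneous sets `A` of admissible primes, and are unbounded in the other case
(`Pool/Agent/U707/SHA`).
-/

set_option autoImplicit false

open scoped Classical

namespace Pool.Agent.Results.MP_e23604_nt.ArbitraryPrimeSets

open Pool.Agent.TH841.NF.D (Sha rk)

/-- `y² = x³ + a D x² + b D² x` over `K` -/
def curve (a b : ℤ) (D : ℕ) (K : Type) [Field K] : WeierstrassCurve K :=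
  ⟨0, (a : K) * (D : K), 0, (b : K) * (D : K) ^ 2, 0⟩

/-- `E_D` over `ℚ` -/
def E (a b : ℤ) (D : ℕ) : WeierstrassCurve ℚ := curve a b D ℚ

/-- the quartic of `d` has a nontrivial point over `K` -/
def Quartic (K : Type) [Field K] (a b d : ℤ) : Prop :=
  ∃ N M e : K, (M ≠ 0 ∨ e ≠ 0) ∧
    N ^ 2 = (d : K) * M ^ 4 + (a : K) * M ^ 2 * e ^ 2 + (b : K) / (d : K) * e ^ 4

/-- the Selmer group of the isogeny of degree two of `y² = x³ + a x² + b x` -/
def Sel (a b : ℤ) : Set ℤ :=
  {d | Squarefree d ∧ Quartic ℝ a b d ∧ ∀ (p : ℕ) [Fact p.Prime], Quartic ℚ_[p] a b d}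

/-- the size of the Selmer group of `E_D` -/
noncomputable def sel (a b : ℤ) (D : ℕ) : ℕ := (Sel (a * D) (b * D ^ 2)).ncard

/-- the size of the Selmer group of the dual isogeny -/
noncomputable def sel' (a b : ℤ) (D : ℕ) : ℕ :=
  (Sel (-2 * (a * D)) ((a * D) ^ 2 - 4 * (b * D ^ 2))).ncard

/-- `n` is `1` modulo `8` and a nonzero square modulo the odd primes dividing `b (a² - 4 b)` -/
def Res (a b : ℤ) (n : ℕ) : Prop := n % 8 = 1 ∧ ∀ l : ℕ, l.Prime → l ≠ 2 →
  (l : ℤ) ∣ b * (a ^ 2 - 4 * b) → ¬ l ∣ n ∧ IsSquare (n : ZMod l)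

/-- the inert primes -/
def Inert (a b : ℤ) (q : ℕ) : Prop := q ≠ 2 ∧ ¬ IsSquare (b : ZMod q) ∧
  ¬ IsSquare ((a ^ 2 - 4 * b : ℤ) : ZMod q)

/-- a split or inert prime -/
def SplitOrInert (a b : ℤ) (p : ℕ) : Prop := p.Prime ∧ (Res a b p ∨ Inert a b p)

/-- the class of the numbers `D` -/
def Class (a b : ℤ) (D : ℕ) : Prop := Squarefree D ∧ Res a b D ∧
  ∀ p ∈ D.primeFactors, SplitOrInert a b p

/-- the admissible primes for `D` -/
def Admissible (a b : ℤ) (D p : ℕ) : Prop := SplitOrInert a b p ∧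
  ∀ t : ZMod p, t ^ 4 + (a : ZMod p) * D * t ^ 2 + (b : ZMod p) * (D : ZMod p) ^ 2 ≠ 0

/-- the Selmer groups of `E_{D'}` have the same sizes as those of `E_D`, and they bound the rank and
`Ш[2]` of `E_{D'}` -/
def SameSelmer (a b : ℤ) (D D' : ℕ) : Prop :=
  Class a b D' ∧ sel a b D' = sel a b D ∧ sel' a b D' = sel' a b D ∧
    Finite {x : Sha (E a b D') // 2 • x = 0} ∧
    4 * 2 ^ rk (E a b D') * Nat.card {x : Sha (E a b D') // 2 • x = 0} ≤ sel a b D * sel' a b D

/-- `E_D(ℚ)` is finite and `Ш(E_D/ℚ)[2^∞] = 0` -/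
def TrivialTwo (a b : ℤ) (D : ℕ) : Prop :=
  Finite (E a b D).toAffine.Point ∧ ∀ (n : ℕ) (x : Sha (E a b D)), 2 ^ n • x = 0 → x = 0

/-- the property `Q` holds for `D ∏ A` for all the finite subsets `A` of `T` with an even number of
elements -/
def ForAllEven (T : Set ℕ) (D : ℕ) (Q : ℕ → Prop) : Prop :=
  ∀ A : Finset ℕ, (A : Set ℕ) ⊆ T → Even A.card → Q (D * ∏ p ∈ A, p)

/-- `K` is generated by `n` square roots of products of evenly many elements of `T` -/
def Layer (T : Set ℕ) (n : ℕ) (K : Type) [Field K] [NumberField K] : Prop :=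
  ∃ (r : Fin n → K) (A : Fin n → Finset ℕ),
    (∀ i, (A i : Set ℕ) ⊆ T ∧ Even (A i).card ∧ r i ^ 2 = ((∏ p ∈ A i, p : ℕ) : K)) ∧
      IntermediateField.adjoin ℚ (Set.range r) = ⊤

/-- the number of the primes dividing `n` -/
def omega (n : ℕ) : ℕ := n.primeFactors.card

section proof

open Finset
open Pool.Agent.U707.SHA (Adm Same SI NoRoot sel_cl fin_adm inf_adm inf_iff unb tt_iff kap bad layer_tt
  layer_rk)

variable {a b : ℤ} {D : ℕ}

theorem si_iff (p : ℕ) : SplitOrInert a b p ↔ SI a b p :=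
  and_congr_right fun h => or_congr Iff.rfl ⟨fun h' => ⟨h, h'⟩, fun h' => h'.2⟩

theorem class_iff : Class a b D ↔ Pool.Agent.U115.GE.Class a b D := by
  refine and_congr_right fun _ => and_congr_right fun _ => forall₂_congr fun p hp => ?_
  have hpp := Nat.prime_of_mem_primeFactors hp
  exact ⟨fun h => h.2.elim (fun h' => Or.inl ⟨hpp, h'⟩) fun h' => Or.inr ⟨hpp, h'⟩,
    fun h => ⟨hpp, h.elim (fun h' => Or.inl h'.2) fun h' => Or.inr h'.2⟩⟩

theorem adm_iff (p : ℕ) : Admissible a b D p ↔ Adm a b D p := and_congr (si_iff p) Iff.rfl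

/-- the Selmer groups are finite and not empty -/
theorem sel_pos (hb : b ≠ 0) (hc : a ^ 2 - 4 * b ≠ 0) (hD : Class a b D) :
    0 < sel a b D * sel' a b D := by
  obtain ⟨-, -, h1, h2⟩ := sel_cl hb hc (class_iff.1 hD)
  refine lt_of_lt_of_le ?_ h2
  have : 0 < Nat.card {x : Sha (Pool.Agent.U115.GE.twE a b D) // 2 • x = 0} :=
    Nat.card_pos_iff.2 ⟨⟨⟨0, smul_zero 2⟩⟩, h1⟩
  positivity

theorem base_pos (hb : b ≠ 0) (hc : a ^ 2 - 4 * b ≠ 0) (hD : Class a b D) :
    0 < Pool.Agent.U115.GE.sel a b ∧ 0 < kap a b D := by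
  have h1 := sel_pos hb hc hD
  have h2 := (sel_cl hb hc (class_iff.1 hD)).1
  have h3 : 0 < sel a b D := Nat.pos_of_mul_pos_right h1
  have h4 : sel a b D = kap a b D * Pool.Agent.U115.GE.sel a b := h2
  rw [h4] at h3
  exact ⟨Nat.pos_of_mul_pos_left h3, Nat.pos_of_mul_pos_right h3⟩

theorem same_iff (hb : b ≠ 0) (hc : a ^ 2 - 4 * b ≠ 0) (hD : Class a b D) (D' : ℕ) :
    SameSelmer a b D D' ↔ Same a b D D' := by
  obtain ⟨e1, e2, -, -⟩ := sel_cl hb hc (class_iff.1 hD)
  have e1' : sel a b D = kap a b D * Pool.Agent.U115.GE.sel a b := e1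
  have e2' : sel' a b D = kap a b D * Pool.Agent.U115.GE.sel (-2 * a) (a ^ 2 - 4 * b) := e2
  constructor
  · rintro ⟨h1, h2, -⟩
    have h3 := class_iff.1 h1
    refine ⟨h3, ?_⟩
    have h4 : sel a b D' = kap a b D' * Pool.Agent.U115.GE.sel a b := (sel_cl hb hc h3).1
    rw [h4, e1'] at h2
    exact Nat.eq_of_mul_eq_mul_right (base_pos hb hc hD).1 h2
  · rintro ⟨h1, h2⟩
    obtain ⟨f1, f2, f3, f4⟩ := sel_cl hb hc h1
    have f1' : sel a b D' = kap a b D' * Pool.Agent.U115.GE.sel a b := f1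
    have f2' : sel' a b D' = kap a b D' * Pool.Agent.U115.GE.sel (-2 * a) (a ^ 2 - 4 * b) := f2
    have g1 : sel a b D' = sel a b D := by rw [f1', e1', h2]
    have g2 : sel' a b D' = sel' a b D := by rw [f2', e2', h2]
    refine ⟨class_iff.2 h1, g1, g2, f3, ?_⟩
    have f4' : 4 * 2 ^ rk (E a b D') * Nat.card {x : Sha (E a b D') // 2 • x = 0} ≤
        sel a b D' * sel' a b D' := f4
    rw [g1, g2] at f4'
    exact f4'

theorem omega_bad (hb : b ≠ 0) (hc : a ^ 2 - 4 * b ≠ 0) :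
    omega (2 * b * (a ^ 2 - 4 * b)).natAbs = (bad a b).card + 1 := by
  have h0 : (b * (a ^ 2 - 4 * b)).natAbs ≠ 0 := Int.natAbs_ne_zero.2 (mul_ne_zero hb hc)
  have h1 : (2 * b * (a ^ 2 - 4 * b)).natAbs.primeFactors = insert 2 (bad a b) := by
    rw [mul_assoc, Int.natAbs_mul, show (2 : ℤ).natAbs = 2 from rfl,
      Nat.primeFactors_mul two_ne_zero h0, Nat.prime_two.primeFactors]
    unfold bad
    ext l
    simp only [mem_union, mem_singleton, mem_insert, mem_erase]
    tauto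
  unfold omega
  rw [h1, card_insert_of_notMem]
  unfold bad
  exact notMem_erase _ _

theorem fin_part (hb : b ≠ 0) (hc : a ^ 2 - 4 * b ≠ 0) (hD : Class a b D) {k : ℕ} (S : Finset ℕ)
    (hk : Even k) (hS : ∀ p ∈ S, Admissible a b D p)
    (hN : 2 ^ (2 * k + omega D + omega (2 * b * (a ^ 2 - 4 * b)).natAbs + 1) ≤ S.card) :
    S.card.choose k ≤
      (2 ^ (2 * k + omega D + omega (2 * b * (a ^ 2 - 4 * b)).natAbs + 1)).choose k *
        ((S.powersetCard k).filter fun A => SameSelmer a b D (D * ∏ p ∈ A, p)).card := by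
  have e : 2 * k + omega D + omega (2 * b * (a ^ 2 - 4 * b)).natAbs + 1 =
      2 * k + D.primeFactors.card + (bad a b).card + 2 := by
    rw [omega_bad hb hc]
    unfold omega
    ring
  rw [e] at hN ⊢
  have h := fin_adm hb hc (class_iff.1 hD) hk S (fun p hp => (adm_iff p).1 (hS p hp)) hN
  have e2 : ((S.powersetCard k).filter fun A => SameSelmer a b D (D * ∏ p ∈ A, p)) =
      (S.powersetCard k).filter fun A => Same a b D (D * ∏ p ∈ A, p) :=
    filter_congr fun A _ => same_iff hb hc hD _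
  rw [e2]
  exact h

theorem inf_part (hb : b ≠ 0) (hc : a ^ 2 - 4 * b ≠ 0) (hD : Class a b D) (S : Set ℕ)
    (hS : ∀ p ∈ S, SplitOrInert a b p) :
    List.TFAE [{p ∈ S | Admissible a b D p}.Infinite,
      ∃ T ⊆ S, T.Infinite ∧ ForAllEven T D (SameSelmer a b D),
      ∃ T ⊆ S, T.Infinite ∧ ∃ M, ForAllEven T D (fun D' => sel a b D' ≤ M)] := by
  have h := inf_iff hb hc (class_iff.1 hD) S fun p hp => (si_iff p).1 (hS p hp)
  have e1 : {p ∈ S | Admissible a b D p} = {p ∈ S | Adm a b D p} := by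
    ext p
    exact and_congr_right fun _ => adm_iff p
  have h12 := h.out 0 1
  have h31 := h.out 2 0
  tfae_have 1 → 2 := by
    intro h1
    rw [e1] at h1
    obtain ⟨T, hT, h2, h3⟩ := h12.1 h1
    exact ⟨T, hT, h2, fun A hA hAe => (same_iff hb hc hD _).2 (h3 A hA hAe)⟩
  tfae_have 2 → 3 := by
    rintro ⟨T, hT, h1, h2⟩
    exact ⟨T, hT, h1, sel a b D, fun A hA hAe => (h2 A hA hAe).2.1.le⟩
  tfae_have 3 → 1 := by
    rintro ⟨T, hT, h1, M, h2⟩
    rw [e1]
    refine h31.1 ⟨T, hT, h1, M, fun A hA hAe hcl => ?_⟩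
    have h3 : sel a b (D * ∏ p ∈ A, p) = kap a b (D * ∏ p ∈ A, p) *
        Pool.Agent.U115.GE.sel a b := (sel_cl hb hc hcl).1
    have h4 := h2 A hA hAe
    simp only at h4
    rw [h3] at h4
    exact (Nat.le_mul_of_pos_right _ (base_pos hb hc hD).1).trans h4
  tfae_finish

theorem rk_part (hb : b ≠ 0) (hc : a ^ 2 - 4 * b ≠ 0) (hD : Class a b D) (T : Set ℕ)
    (hT : ∀ p ∈ T, p.Prime) (h : ForAllEven T D (SameSelmer a b D)) (n : ℕ) (K : Type) [Field K]
    [NumberField K] (hK : Layer T n K) :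
    rk (curve a b D K) ≤ 2 ^ n * Nat.log 2 (sel a b D * sel' a b D / 4) := by
  refine layer_rk (n := n) hb hc hD.1.ne_zero (T := T) (fun q hq => (hT q hq).ne_zero) ?_ K hK
  intro V hV hVe
  obtain ⟨h1, -, -, h2, h3⟩ := h V hV hVe
  refine ⟨h1.1, ?_⟩
  have h4 : 0 < Nat.card {x : Sha (E a b (D * ∏ p ∈ V, p)) // 2 • x = 0} :=
    Nat.card_pos_iff.2 ⟨⟨⟨0, smul_zero 2⟩⟩, h2⟩
  have h5 : 2 ^ rk (E a b (D * ∏ p ∈ V, p)) ≤ sel a b D * sel' a b D / 4 := by
    rw [Nat.le_div_iff_mul_le (by norm_num), mul_comm]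
    exact (Nat.le_mul_of_pos_right _ h4).trans h3
  exact Nat.le_log_of_pow_le (by norm_num) h5

theorem tt_part (hb : b ≠ 0) (hc : a ^ 2 - 4 * b ≠ 0) (nb : ¬ IsSquare b)
    (nc : ¬ IsSquare (a ^ 2 - 4 * b))
    (h4 : (Sel a b).ncard * (Sel (-2 * a) (a ^ 2 - 4 * b)).ncard = 4) (hD : Class a b D) :
    TrivialTwo a b D ↔ kap a b D = 1 :=
  tt_iff hb hc nb nc h4 (class_iff.1 hD)

theorem class_one : Class a b 1 :=
  ⟨squarefree_one, Pool.Agent.U115.GE.res_one a b, fun p hp => by simp at hp⟩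

theorem tt_one (hb : b ≠ 0) (hc : a ^ 2 - 4 * b ≠ 0) (nb : ¬ IsSquare b)
    (nc : ¬ IsSquare (a ^ 2 - 4 * b))
    (h4 : (Sel a b).ncard * (Sel (-2 * a) (a ^ 2 - 4 * b)).ncard = 4) : TrivialTwo a b 1 := by
  rw [tt_part hb hc nb nc h4 class_one]
  have h1 : sel a b 1 = kap a b 1 * Pool.Agent.U115.GE.sel a b :=
    (sel_cl hb hc (class_iff.1 class_one)).1
  have h2 : sel a b 1 = Pool.Agent.U115.GE.sel a b := by
    unfold sel Pool.Agent.U115.GE.sel
    rw [Nat.cast_one, mul_one, one_pow, mul_one]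
    rfl
  rw [h2] at h1
  have h3 := (base_pos hb hc (class_one (a := a) (b := b))).1
  exact Nat.eq_of_mul_eq_mul_right h3 (by rw [← h1, one_mul])

theorem iff_part (hb : b ≠ 0) (hc : a ^ 2 - 4 * b ≠ 0) (nb : ¬ IsSquare b)
    (nc : ¬ IsSquare (a ^ 2 - 4 * b))
    (h4 : (Sel a b).ncard * (Sel (-2 * a) (a ^ 2 - 4 * b)).ncard = 4) (hD : Class a b D)
    (hT : TrivialTwo a b D) (S : Set ℕ) (hS : ∀ p ∈ S, SplitOrInert a b p) :
    {p ∈ S | Admissible a b D p}.Infinite ↔
      ∃ T ⊆ S, T.Infinite ∧ ForAllEven T D (TrivialTwo a b) := by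
  have hk := (tt_part hb hc nb nc h4 hD).1 hT
  constructor
  · intro h
    obtain ⟨T, hTS, h1, h2⟩ := ((inf_part hb hc hD S hS).out 0 1).1 h
    refine ⟨T, hTS, h1, fun A hA hAe => ?_⟩
    obtain ⟨h3, h5⟩ := (same_iff hb hc hD _).1 (h2 A hA hAe)
    exact (tt_part hb hc nb nc h4 (class_iff.2 h3)).2 (h5.trans hk)
  · rintro ⟨T, hTS, h1, h2⟩
    by_contra hf
    rw [Set.not_infinite] at hf
    obtain ⟨A, hA, hAe, h3, h5⟩ := unb hb hc (class_iff.1 hD) T h1
      (fun p hp => (si_iff p).1 (hS p (hTS hp)))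
      (hf.subset fun p hp => ⟨hTS hp.1, hS p (hTS hp.1), hp.2⟩) 2
    have := (tt_part hb hc nb nc h4 (class_iff.2 h3)).1 (h2 A hA hAe)
    omega

theorem layer_part (hb : b ≠ 0) (hc : a ^ 2 - 4 * b ≠ 0) (hD : Squarefree D) (T : Set ℕ)
    (hT : ∀ p ∈ T, p.Prime ∧ ¬ p ∣ D) (h : ForAllEven T D (TrivialTwo a b)) (n : ℕ) (K : Type)
    [Field K] [NumberField K] (hK : Layer T n K) :
    Finite (curve a b D K).toAffine.Point ∧
      ∀ (k : ℕ) (x : Sha (curve a b D K)), 2 ^ k • x = 0 → 2 ^ n • x = 0 := by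
  refine layer_tt (n := n) hb hc hD.ne_zero (T := T) (fun q hq => (hT q hq).1.ne_zero) ?_ K hK
  intro V hV hVe
  obtain ⟨h1, h2⟩ := h V hV hVe
  refine ⟨?_, h1, fun x hx => h2 1 x (by rw [pow_one]; exact hx)⟩
  refine (Nat.squarefree_mul_iff).2 ⟨?_, hD, ?_⟩
  · refine Nat.Coprime.prod_right fun p hp => ?_
    have h3 := hT p (hV (mem_coe.2 hp))
    exact ((h3.1.coprime_iff_not_dvd).2 h3.2).symm
  · refine Finset.squarefree_prod_of_pairwise_isCoprime ?_
      fun p hp => (hT p (hV (mem_coe.2 hp))).1.squarefree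
    intro p hp q hq hpq
    exact Nat.coprime_iff_isRelPrime.1
      ((Nat.coprime_primes (hT p (hV hp)).1 (hT q (hV hq)).1).2 hpq)

open Pool.Agent.U115.GE (cfg) in
theorem inert_inf (hb : b ≠ 0) (hc : a ^ 2 - 4 * b ≠ 0) (nb : ¬ IsSquare b)
    (nc : ¬ IsSquare (a ^ 2 - 4 * b)) : {q : ℕ | q.Prime ∧ Inert a b q}.Infinite := by
  obtain ⟨hok, -, hin, -⟩ := Pool.Agent.U643.GE.t_CFG a b hb hc nb nc
  obtain ⟨r, hr⟩ := hok.hBn
  obtain ⟨h1, h2, -⟩ := hok.hB r hr
  have : NeZero (cfg a b).Q := ⟨hok.q0.ne'⟩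
  have h3 := Nat.infinite_setOfPred_prime_and_eq_mod (q := (cfg a b).Q) (a := (r : ZMod (cfg a b).Q))
    ((ZMod.isUnit_iff_coprime _ _).2 h2)
  refine h3.mono fun p hp => (hin p).2 ⟨hp.1, ?_⟩
  have h4 := (ZMod.natCast_eq_natCast_iff' p r _).1 hp.2
  rw [h4, Nat.mod_eq_of_lt h1]
  exact hr

theorem inert_adm {q : ℕ} (hq : q.Prime) (hi : Inert a b q) (hd : ¬ q ∣ D) :
    Admissible a b D q :=
  ⟨⟨hq, Or.inr hi⟩, Pool.Agent.U707.SHA.noRoot_inert ⟨hq, hi⟩ hd⟩

end proof

/-- **Selmer groups and `Ш[2^∞]` of quadratic twists with prime factors in an arbitrary set.** -/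
theorem result (a b : ℤ) (hb : b ≠ 0) (hc : a ^ 2 - 4 * b ≠ 0) :
    (∀ D : ℕ, Class a b D →
      -- finite sets of admissible primes
      (∀ (k : ℕ) (S : Finset ℕ), Even k → (∀ p ∈ S, Admissible a b D p) →
        2 ^ (2 * k + omega D + omega (2 * b * (a ^ 2 - 4 * b)).natAbs + 1) ≤ S.card →
        S.card.choose k ≤
          (2 ^ (2 * k + omega D + omega (2 * b * (a ^ 2 - 4 * b)).natAbs + 1)).choose k *
            ((S.powersetCard k).filter fun A => SameSelmer a b D (D * ∏ p ∈ A, p)).card) ∧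
      -- arbitrary sets of split or inert primes
      (∀ S : Set ℕ, (∀ p ∈ S, SplitOrInert a b p) →
        List.TFAE [{p ∈ S | Admissible a b D p}.Infinite,
          ∃ T ⊆ S, T.Infinite ∧ ForAllEven T D (SameSelmer a b D),
          ∃ T ⊆ S, T.Infinite ∧ ∃ M, ForAllEven T D (fun D' => sel a b D' ≤ M)]) ∧
      -- the rank over number fields
      (∀ T : Set ℕ, (∀ p ∈ T, p.Prime) → ForAllEven T D (SameSelmer a b D) →
        ∀ (n : ℕ) (K : Type) [Field K] [NumberField K], Layer T n K →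
          rk (curve a b D K) ≤ 2 ^ n * Nat.log 2 (sel a b D * sel' a b D / 4)) ∧
      -- the inert primes are admissible
      ∀ q : ℕ, q.Prime → Inert a b q → ¬ q ∣ D → Admissible a b D q) ∧
    (¬ IsSquare b → ¬ IsSquare (a ^ 2 - 4 * b) →
      {q : ℕ | q.Prime ∧ Inert a b q}.Infinite ∧
      -- minimal Selmer groups
      ((Sel a b).ncard * (Sel (-2 * a) (a ^ 2 - 4 * b)).ncard = 4 →
        Class a b 1 ∧ TrivialTwo a b 1 ∧
        ∀ D : ℕ, Class a b D → TrivialTwo a b D →
          (∀ D' : ℕ, SameSelmer a b D D' → TrivialTwo a b D') ∧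
          (∀ S : Set ℕ, (∀ p ∈ S, SplitOrInert a b p) →
            ({p ∈ S | Admissible a b D p}.Infinite ↔
              ∃ T ⊆ S, T.Infinite ∧ ForAllEven T D (TrivialTwo a b))) ∧
          (∀ T : Set ℕ, (∀ p ∈ T, p.Prime ∧ ¬ p ∣ D) → ForAllEven T D (TrivialTwo a b) →
            ∀ (n : ℕ) (K : Type) [Field K] [NumberField K], Layer T n K →
              Finite (curve a b D K).toAffine.Point ∧
                ∀ (k : ℕ) (x : Sha (curve a b D K)), 2 ^ k • x = 0 → 2 ^ n • x = 0))) ∧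
    (Sel 13 128).ncard * (Sel (-2 * 13) (13 ^ 2 - 4 * 128)).ncard = 4 := by
  refine ⟨fun D hD => ⟨fun k S hk hS hN => fin_part hb hc hD S hk hS hN,
    fun S hS => inf_part hb hc hD S hS,
    fun T hT h n K _ _ hK => rk_part hb hc hD T hT h n K hK,
    fun q hq hi hd => inert_adm hq hi hd⟩,
    fun nb nc => ⟨inert_inf hb hc nb nc, fun h4 => ⟨class_one, tt_one hb hc nb nc h4,
      fun D hD hT => ⟨fun D' h => ?_, fun S hS => iff_part hb hc nb nc h4 hD hT S hS,
        fun T hT' h n K _ _ hK => layer_part hb hc hD.1 T hT' h n K hK⟩⟩⟩, ?_⟩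
  · obtain ⟨h1, h2⟩ := (same_iff hb hc hD D').1 h
    exact (tt_part hb hc nb nc h4 (class_iff.2 h1)).2
      (h2.trans ((tt_part hb hc nb nc h4 hD).1 hT))
  · obtain ⟨e1, e2⟩ := Pool.Agent.U115.GE.sel_X14
    have e1' : (Sel 13 128).ncard = 2 := e1
    have e2' : (Sel (-2 * 13) (13 ^ 2 - 4 * 128)).ncard = 2 := e2
    rw [e1', e2']

end Pool.Agent.Results.MP_e23604_nt.ArbitraryPrimeSets
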